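import Pool.Agent.E8helper49.DD.Fin

/-!
# The dodecahedron is PN-unique (MP_bfbd14_co, Q1: yes)

Any two realizations of the dodecahedron in `ℝ³` can be joined by a finite chain of realizations in
which consecutive members differ by a projective or by a normal transformation.
-/

namespace Pool.Agent.Results.MP_bfbd14_co.PNUniqueH49

/-- The combinatorial dodecahedron: twelve facets `0, …, 11` (facet `0` has the neighbours `1, …, 5`,
facet `11` has the neighbours `6, …, 10`), twenty vertices; the table lists the three facets through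
each vertex. -/
def face : Fin 20 → Fin 3 → Fin 12 :=
  ![![0,1,2], ![0,2,3], ![0,3,4], ![0,4,5], ![0,5,1],
    ![1,6,2], ![2,7,3], ![3,8,4], ![4,9,5], ![5,10,1],
    ![1,10,6], ![2,6,7], ![3,7,8], ![4,8,9], ![5,9,10],
    ![11,6,10], ![11,7,6], ![11,8,7], ![11,9,8], ![11,10,9]]

/-- `P` is the polytope with vertices `v T` and facets `n i · x ≤ b i`, and the vertex-facet
incidences are those of the dodecahedron: `P` is the convex hull of the twenty points `v T` and the
intersection of the twelve half-spaces `n i · x ≤ b i`, and `v T` lies on the boundary plane of the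
`i`-th half-space exactly when `i` is one of the three facets through the vertex `T`. -/
def IsPresentation (P : Set (Fin 3 → ℝ)) (v : Fin 20 → Fin 3 → ℝ) (n : Fin 12 → Fin 3 → ℝ)
    (b : Fin 12 → ℝ) : Prop :=
  P = convexHull ℝ (Set.range v) ∧ P = {x | ∀ i, n i ⬝ᵥ x ≤ b i} ∧
    ∀ T i, n i ⬝ᵥ v T = b i ↔ ∃ r, face T r = i

/-- `P` is a realization of the dodecahedron. -/
def IsRealization (P : Set (Fin 3 → ℝ)) : Prop := ∃ v n b, IsPresentation P v n b

/-- `Q` is obtained from `P` by the projective transformation `x ↦ (A x + a) / (c · x + α)`, where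
`M = (A, a; c, α)` is invertible and the plane `c · x + α = 0` misses `P`. -/
def ProjectiveStep (P Q : Set (Fin 3 → ℝ)) : Prop :=
  ∃ M : Matrix (Fin 4) (Fin 4) ℝ, M.det ≠ 0 ∧
    (∀ x ∈ P, (M.mulVec ![x 0, x 1, x 2, 1]) 3 ≠ 0) ∧
    Q = (fun x (j : Fin 3) =>
      (M.mulVec ![x 0, x 1, x 2, 1]) j.castSucc / (M.mulVec ![x 0, x 1, x 2, 1]) 3) '' P

/-- `P` and `Q` are realizations of the dodecahedron with the same outer facet normals `n i`: one is
obtained from the other by moving the facet planes parallel to themselves. -/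
def NormalStep (P Q : Set (Fin 3 → ℝ)) : Prop :=
  ∃ v n b v' b', IsPresentation P v n b ∧ IsPresentation Q v' n b'

/-- **The dodecahedron is PN-unique.** -/
theorem result (P Q : Set (Fin 3 → ℝ)) (hP : IsRealization P) (hQ : IsRealization Q) :
    Relation.ReflTransGen (fun P Q => IsRealization P ∧ IsRealization Q ∧
      (ProjectiveStep P Q ∨ NormalStep P Q)) P Q :=
  Pool.Agent.E8helper49.DD.final P Q hP hQ

end Pool.Agent.Results.MP_bfbd14_co.PNUniqueH49
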